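import Pool.Agent.helper11.OFP.Spec

/-! Row ofp:GEN (MP_90e158_lc): scaled copies of the generator `X0` -/

set_option autoImplicit false

namespace Pool.Agent.OFP

open Pool.Agent.LOF MeasureTheory

theorem GEN : GEN_stmt := by
  intro a m hda ha0 ha1
  have hm : (0:ℝ) < 2 ^ m := by positivity
  obtain ⟨g, hg⟩ : ∃ g : ℝ ≃o ℝ, g = (Aff m a)⁻¹ * (X0 * Aff m a) := ⟨_, rfl⟩
  have hgapp : ∀ t, g t = X0 (2 ^ m * (t - a)) / 2 ^ m + a := by
    intro t
    rw [hg]
    rfl
  have hlow : ∀ t ≤ a, g t = t := by
    intro t ht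
    rw [hgapp, X0_apply, if_pos]
    · field_simp; ring
    · have : t - a ≤ 0 := by linarith
      exact mul_nonpos_of_nonneg_of_nonpos hm.le this
  have h1m : 2 ^ m * (a + 1 / 2 ^ m - a) = 1 := by
    field_simp; ring
  have hhigh : ∀ t, a + 1 / 2 ^ m ≤ t → g t = t := by
    intro t ht
    have i1 : 1 ≤ 2 ^ m * (t - a) := by
      rw [← h1m]
      exact mul_le_mul_of_nonneg_left (by linarith) hm.le
    have i2 : X0 (2 ^ m * (t - a)) = 2 ^ m * (t - a) := by
      rw [X0_apply]
      split_ifs <;> linarith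
    rw [hgapp, i2]
    field_simp; ring
  have hgF : g ∈ F := by
    refine ⟨?_, ?_⟩
    · intro x hx
      rw [Set.mem_Ioo, not_and_or, not_lt, not_lt] at hx
      rcases hx with hx | hx
      · exact hlow x (hx.trans ha0)
      · exact hhigh x (ha1.trans hx)
    · rw [hg]
      refine ⟨_, ?_, ((Aff_pl m a).inv).mul (X0_pl.mul (Aff_pl m a))⟩
      have hd1 : ∀ t, IsDyadic t → IsDyadic (((Aff m a)⁻¹ : ℝ ≃o ℝ) t) := by
        intro t ht
        rw [Aff_inv_apply]
        have : t / 2 ^ m = 2 ^ (-(m:ℤ)) * t := by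
          rw [zpow_neg, zpow_natCast]; field_simp
        rw [this]
        exact (ht.pow_mul _).add hda
      intro b hb
      rw [Finset.mem_union] at hb
      rcases hb with hb | hb
      · rw [Finset.mem_union] at hb
        rcases hb with hb | hb
        · simp at hb
        · rw [Finset.mem_image] at hb
          obtain ⟨c, hc, rfl⟩ := hb
          refine hd1 _ ?_
          simp only [Finset.mem_insert, Finset.mem_singleton] at hc
          rcases hc with rfl | rfl | rfl | rfl
          · simpa using IsDyadic.int 0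
          · exact ⟨1, 1, by norm_num⟩
          · exact ⟨3, 2, by norm_num⟩
          · simpa using IsDyadic.int 1
      · simp at hb
  refine ⟨⟨g, hgF⟩, ?_, ?_⟩
  · rintro t (ht | ht)
    · exact hlow t ht
    · exact hhigh t ht
  · intro u _ _
    show g (a + u / 2 ^ m) = a + X0 u / 2 ^ m
    rw [hgapp]
    have e : 2 ^ m * (a + u / 2 ^ m - a) = u := by field_simp; ring
    rw [e]
    ring

end Pool.Agent.OFP
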