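import Pool.Agent.helper11.OFP.Spec

/-! Row ofp:WMS (MP_90e158_lc): the set `W` is Borel -/

set_option autoImplicit false

namespace Pool.Agent.OFP

open Pool.Agent.LOF MeasureTheory

theorem WMS_fin (hFMS : FMS_stmt) (hCRD : CRD_stmt) (h : F) :
    MeasurableSet {r : LO F | (FH r h).Finite} := by
  have h1 : {r : LO F | (FH r h).Finite} = ⋃ m : ℕ, ⋂ f : Fin (m + 1) → ℚ, ⋂ g : Fin (m + 1) → ℚ,
      ⋂ (_ : ∀ i, 0 < f i ∧ f i ≤ g i ∧ g i < 1), ⋂ (_ : ∀ i j, i < j → g i < f j),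
      ⋃ i, {r : LO F | ∃ t ∈ FH r h, (f i : ℝ) ≤ t ∧ t ≤ (g i : ℝ)}ᶜ := by
    ext r
    simp only [Set.mem_iUnion, Set.mem_iInter]
    have hS : ∀ t ∈ FH r h, 0 < t ∧ t < 1 := fun t ht => ⟨ht.1, ht.2.1⟩
    constructor
    · intro hf
      have hf' : (FH r h).Finite := hf
      refine ⟨(FH r h).ncard, fun f g h2 h3 => ?_⟩
      obtain ⟨i, hi⟩ := (hCRD _ _ hS).1 ⟨hf', le_rfl⟩ f g h2 h3
      exact ⟨i, hi⟩
    · rintro ⟨m, hm⟩
      exact ((hCRD _ m hS).2 fun f g h2 h3 => hm f g h2 h3).1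
  rw [h1]
  refine MeasurableSet.iUnion fun m => MeasurableSet.iInter fun f => MeasurableSet.iInter fun g =>
    MeasurableSet.iInter fun h2 => MeasurableSet.iInter fun h3 => MeasurableSet.iUnion fun i => ?_
  refine MeasurableSet.compl (hFMS h _ _ ?_ ?_)
  · exact_mod_cast (h2 i).1
  · exact_mod_cast (h2 i).2.2

theorem WMS_open (hFMS : FMS_stmt) (h : F) (a b : ℚ) (ha : 0 ≤ a) (hb : b ≤ 1) :
    MeasurableSet {r : LO F | ∃ t ∈ FH r h, (a : ℝ) < t ∧ t < (b : ℝ)} := by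
  have h1 : {r : LO F | ∃ t ∈ FH r h, (a : ℝ) < t ∧ t < (b : ℝ)} = ⋃ c : ℚ, ⋃ d : ℚ,
      ⋃ (_ : a < c), ⋃ (_ : d < b), {r : LO F | ∃ t ∈ FH r h, (c : ℝ) ≤ t ∧ t ≤ (d : ℝ)} := by
    ext r
    simp only [Set.mem_iUnion]
    constructor
    · rintro ⟨t, ht, h2, h3⟩
      obtain ⟨c, hc1, hc2⟩ := exists_rat_btwn h2
      obtain ⟨d, hd1, hd2⟩ := exists_rat_btwn h3
      exact ⟨c, d, by exact_mod_cast hc1, by exact_mod_cast hd2, t, ht, hc2.le, hd1.le⟩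
    · rintro ⟨c, d, hc, hd, t, ht, h2, h3⟩
      refine ⟨t, ht, lt_of_lt_of_le ?_ h2, lt_of_le_of_lt h3 ?_⟩
      · exact_mod_cast hc
      · exact_mod_cast hd
  rw [h1]
  refine MeasurableSet.iUnion fun c => MeasurableSet.iUnion fun d => MeasurableSet.iUnion fun hc =>
    MeasurableSet.iUnion fun hd => hFMS h _ _ ?_ ?_
  · exact_mod_cast lt_of_le_of_lt ha hc
  · exact_mod_cast lt_of_lt_of_le hd hb

theorem WMS (hFMS : FMS_stmt) (hCRD : CRD_stmt) (hWDM : WDM_stmt) : WMS_stmt := by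
  have h1 : W = ⋂ a : ℚ, ⋂ b : ℚ, ⋂ (_ : 0 ≤ a), ⋂ (_ : a < b), ⋂ (_ : b ≤ 1), ⋃ h : F,
      ⋃ (_ : h ≠ 1), ({r : LO F | (FH r h).Finite} ∩
        {r : LO F | ∃ t ∈ FH r h, (a : ℝ) < t ∧ t < (b : ℝ)}) := by
    ext r
    rw [hWDM r]
    simp only [Set.mem_iUnion, Set.mem_iInter, Set.mem_inter_iff]
    constructor
    · intro h a b ha hab hb
      obtain ⟨g, h2, h3, h4⟩ := h a b ha hab hb
      exact ⟨g, h2, h3, h4⟩
    · intro h a b ha hab hb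
      obtain ⟨g, h2, h3, h4⟩ := h a b ha hab hb
      exact ⟨g, h2, h3, h4⟩
  unfold WMS_stmt
  rw [h1]
  exact MeasurableSet.iInter fun a => MeasurableSet.iInter fun b => MeasurableSet.iInter fun ha =>
    MeasurableSet.iInter fun _ => MeasurableSet.iInter fun hb => MeasurableSet.iUnion fun h =>
    MeasurableSet.iUnion fun _ => (WMS_fin hFMS hCRD h).inter (WMS_open hFMS h a b ha hb)

end Pool.Agent.OFP
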